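import Pool.Agent.H88.BL.Targets

/-! Bernoulli convolutions near one: an integral from sums over progressions (row DIS). -/

set_option autoImplicit false

open MeasureTheory ProbabilityTheory Filter Topology Set
open scoped ENNReal NNReal

namespace Pool.Agent.H75.BL

open Pool.Agent.H88.BL

theorem pf_DIS : T_DIS := by
  intro f hf δ hδ c hc
  have h1 : ∫⁻ y, f y = ∑' m : ℤ, ∫⁻ y in Ico (m • δ) ((m + 1) • δ), f y := by
    rw [← lintegral_iUnion (fun m : ℤ => measurableSet_Ico) (pairwise_disjoint_Ico_zsmul δ) f,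
      iUnion_Ico_zsmul hδ, Measure.restrict_univ]
  have h2 : ∀ m : ℤ, ∫⁻ y in Ico (m • δ) ((m + 1) • δ), f y =
      ∫⁻ y in Ico 0 δ, f (y + m * δ) := by
    intro m
    have h3 := (measurePreserving_add_right volume ((m : ℝ) * δ)).setLIntegral_comp_preimage
      (measurableSet_Ico (a := m • δ) (b := (m + 1) • δ)) hf
    rw [← h3]
    have h4 : (fun x : ℝ => x + (m : ℝ) * δ) ⁻¹' Ico (m • δ) ((m + 1) • δ) = Ico 0 δ := by
      rw [Set.preimage_add_const_Ico]
      congr 1
      · simp
      · simp only [zsmul_eq_mul]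
        push_cast
        ring
    rw [h4]
  rw [h1]
  simp only [h2]
  have hm : ∀ m : ℤ, AEMeasurable (fun y : ℝ => f (y + m * δ)) (volume.restrict (Ico 0 δ)) :=
    fun m => (hf.comp (measurable_id.add_const _)).aemeasurable
  rw [← lintegral_tsum hm]
  have h5 : ∀ y : ℝ, ∑' m : ℤ, f (y + m * δ) ≤ c := fun y =>
    ENNReal.summable.tsum_le_of_sum_le fun F => hc y F
  refine (lintegral_mono h5).trans ?_
  rw [setLIntegral_const, Real.volume_Ico, sub_zero, mul_comm]

end Pool.Agent.H75.BL
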