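import Pool.Agent.H88.BL.Targets

/-! Bernoulli convolutions near one: the integral over a shell (row ISH). -/

set_option autoImplicit false

open MeasureTheory ProbabilityTheory Filter Topology Set
open scoped ENNReal NNReal

namespace Pool.Agent.H75.BL

open Pool.Agent.H88.BL

theorem gp_cont (t : ℝ) (M : ℕ) : Continuous (gp t M) := by
  unfold gp
  fun_prop

theorem gp_nonneg (t : ℝ) (M : ℕ) (y : ℝ) : 0 ≤ gp t M y :=
  Finset.prod_nonneg fun _ _ => abs_nonneg _

theorem shell_meas (t : ℝ) (N W : ℕ) : MeasurableSet (shell t N W) := by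
  have h1 : Measurable fun y : ℝ => 6 * |y| * (t ^ N) ^ W := by fun_prop
  have h2 : Measurable fun y : ℝ => 6 * |y| * (t ^ N) ^ (W + 1) := by fun_prop
  exact (measurableSet_le measurable_const h1).inter (measurableSet_le h2 measurable_const)

theorem pf_ISH (hE : T_EK) (hD : T_DIS) : T_ISH := by
  classical
  intro t N hP W
  have hg : Measurable fun y => ENNReal.ofReal (gp t (N * (W + 1)) y) :=
    (gp_cont t (N * (W + 1))).measurable.ennreal_ofReal
  have hc0 : 0 ≤ cost N := (Real.exp_pos _).le
  rw [← lintegral_indicator (shell_meas t N W)]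
  have h1 := hD ((shell t N W).indicator fun y => ENNReal.ofReal (gp t (N * (W + 1)) y))
    (hg.indicator (shell_meas t N W)) (1 / 6) (by norm_num)
    (ENNReal.ofReal (7 * cost N * (1 + 4 * cost N) ^ W)) (fun z F => by
      have hinj : Function.Injective fun m : ℤ => z + (m : ℝ) * (1 / 6) := by
        intro m m' h
        have h2 : z + (m : ℝ) * (1 / 6) = z + (m' : ℝ) * (1 / 6) := h
        have h3 : (m : ℝ) = m' := by linarith
        exact_mod_cast h3
      set Y : Finset ℝ := (F.filter fun m : ℤ => z + (m : ℝ) * (1 / 6) ∈ shell t N W).image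
        fun m : ℤ => z + (m : ℝ) * (1 / 6) with hY
      have hsep : Sep Y := by
        intro x hx y hy hxy
        rw [hY, Finset.mem_image] at hx hy
        obtain ⟨m, -, rfl⟩ := hx
        obtain ⟨m', -, rfl⟩ := hy
        have h2 : m ≠ m' := fun h => hxy (by rw [h])
        have h3 : (1 : ℝ) ≤ |(m : ℝ) - m'| := by
          have h4 : (1 : ℤ) ≤ |m - m'| := Int.one_le_abs (sub_ne_zero.2 h2)
          exact_mod_cast h4
        have h5 : z + (m : ℝ) * (1 / 6) - (z + (m' : ℝ) * (1 / 6)) = ((m : ℝ) - m') * (1 / 6) := by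
          ring
        rw [h5, abs_mul, abs_of_pos (by norm_num : (0 : ℝ) < 1 / 6)]
        linarith
      have hsh : ∀ y ∈ Y, y ∈ shell t N W := by
        intro y hy
        rw [hY, Finset.mem_image] at hy
        obtain ⟨m, hm, rfl⟩ := hy
        exact (Finset.mem_filter.1 hm).2
      have h2 := hE t N hP W Y hsep hsh
      have h3 : ∑ m ∈ F, (shell t N W).indicator
          (fun y => ENNReal.ofReal (gp t (N * (W + 1)) y)) (z + (m : ℝ) * (1 / 6)) =
          ENNReal.ofReal (∑ y ∈ Y, gp t (N * (W + 1)) y) := by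
        rw [hY, Finset.sum_image (fun a _ b _ h => hinj h),
          ENNReal.ofReal_sum_of_nonneg (fun _ _ => gp_nonneg _ _ _), Finset.sum_filter]
        refine Finset.sum_congr rfl fun m _ => ?_
        by_cases h : z + (m : ℝ) * (1 / 6) ∈ shell t N W
        · rw [indicator_of_mem h, if_pos h]
        · rw [indicator_of_notMem h, if_neg h]
      rw [h3]
      exact ENNReal.ofReal_le_ofReal h2)
  refine h1.trans ?_
  rw [← ENNReal.ofReal_mul (by norm_num)]
  refine ENNReal.ofReal_le_ofReal ?_
  have h4 : 0 ≤ cost N * (1 + 4 * cost N) ^ W := by positivity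
  nlinarith

end Pool.Agent.H75.BL
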